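import Pool.Agent.Helper78.ZM.Stmts

/-!
Project ZM (MP_ccc3c9_an): basic properties of the complex Hessian (Z0).
-/

open MeasureTheory Filter Topology
open scoped ContDiff Real ENNReal ComplexOrder

namespace Pool.Agent.Helper78.ZM

variable {n : ℕ}

theorem diff_fderiv {f : Cn n → ℝ} {x : Cn n} (hf : ContDiffAt ℝ 2 f x) :
    DifferentiableAt ℝ (fderiv ℝ f) x := by
  have h := hf.fderiv_right (m := 1) (by norm_num)
  exact h.differentiableAt (by norm_num)

theorem D2_eq {f : Cn n → ℝ} {x : Cn n} (hf : ContDiffAt ℝ 2 f x) (u v : Cn n) :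
    D2 f x u v = fderiv ℝ (fderiv ℝ f) x u v := by
  unfold D2
  rw [fderiv_clm_apply (diff_fderiv hf) (differentiableAt_const v)]
  simp

theorem D2_symm {f : Cn n → ℝ} {x : Cn n} (hf : ContDiffAt ℝ 2 f x) (u v : Cn n) :
    D2 f x u v = D2 f x v u := by
  rw [D2_eq hf, D2_eq hf]
  have h : IsSymmSndFDerivAt ℝ f x := hf.isSymmSndFDerivAt (by simp)
  exact h u v

theorem D2_congr {f g : Cn n → ℝ} {x : Cn n} (h : f =ᶠ[𝓝 x] g) (u v : Cn n) :
    D2 f x u v = D2 g x u v := by
  unfold D2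
  have h1 : (fun y => fderiv ℝ f y v) =ᶠ[𝓝 x] fun y => fderiv ℝ g y v := by
    have := h.fderiv (𝕜 := ℝ)
    filter_upwards [this] with y hy
    rw [hy]
  rw [h1.fderiv_eq]

theorem D2_lin {f g : Cn n → ℝ} {x : Cn n} (c : ℝ) (hf : ContDiffAt ℝ 2 f x)
    (hg : ContDiffAt ℝ 2 g x) (u v : Cn n) :
    D2 (fun y => f y + c * g y) x u v = D2 f x u v + c * D2 g x u v := by
  have hf' : ∀ᶠ y in 𝓝 x, DifferentiableAt ℝ f y := by
    have := (hf.eventually (by simp))
    filter_upwards [this] with y hy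
    exact hy.differentiableAt (by norm_num)
  have hg' : ∀ᶠ y in 𝓝 x, DifferentiableAt ℝ g y := by
    have := (hg.eventually (by simp))
    filter_upwards [this] with y hy
    exact hy.differentiableAt (by norm_num)
  have h1 : (fun y => fderiv ℝ (fun z => f z + c * g z) y v) =ᶠ[𝓝 x]
      fun y => fderiv ℝ f y v + c * fderiv ℝ g y v := by
    filter_upwards [hf', hg'] with y h1 h2
    rw [fderiv_fun_add h1 (h2.const_mul c), fderiv_const_mul h2]
    simp
  unfold D2
  rw [h1.fderiv_eq]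
  have d1 : DifferentiableAt ℝ (fun y => fderiv ℝ f y v) x :=
    (diff_fderiv hf).clm_apply (differentiableAt_const v)
  have d2 : DifferentiableAt ℝ (fun y => fderiv ℝ g y v) x :=
    (diff_fderiv hg).clm_apply (differentiableAt_const v)
  rw [fderiv_fun_add d1 (d2.const_mul c), fderiv_const_mul d2]
  simp

theorem levi_lin {f g : Cn n → ℝ} {x : Cn n} (c : ℝ) (hf : ContDiffAt ℝ 2 f x)
    (hg : ContDiffAt ℝ 2 g x) :
    levi (fun y => f y + c * g y) x = levi f x + (c : ℂ) • levi g x := by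
  ext j k
  simp only [levi, Matrix.of_apply, Matrix.add_apply, Matrix.smul_apply, smul_eq_mul,
    D2_lin c hf hg]
  push_cast
  ring

theorem levi_herm {f : Cn n → ℝ} {x : Cn n} (hf : ContDiffAt ℝ 2 f x) :
    (levi f x).IsHermitian := by
  ext j k
  simp only [levi, Matrix.conjTranspose_apply, Matrix.of_apply]
  rw [D2_symm hf (Pi.single k 1) (Pi.single j 1),
    D2_symm hf (Pi.single k Complex.I) (Pi.single j Complex.I),
    D2_symm hf (Pi.single k 1) (Pi.single j Complex.I),
    D2_symm hf (Pi.single k Complex.I) (Pi.single j 1)]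
  simp only [star_mul', star_add, RCLike.star_def, Complex.conj_ofReal, Complex.conj_I, map_div₀,
    map_one, map_ofNat]
  push_cast
  ring

theorem D2_q (x u v : Cn n) :
    D2 (fun y : Cn n => ∑ j, ‖y j‖ ^ 2) x u v = ∑ j, 2 * inner ℝ (u j) (v j) := by
  have h1 : ∀ y : Cn n, fderiv ℝ (fun y : Cn n => ∑ j, ‖y j‖ ^ 2) y v
      = ∑ j, 2 * inner ℝ (y j) (v j) := by
    intro y
    have : HasFDerivAt (fun y : Cn n => ∑ j, ‖y j‖ ^ 2)
        (∑ j, (2 • (innerSL ℝ (y j))).comp (ContinuousLinearMap.proj (R := ℝ) (φ := fun _ : Fin n => ℂ) j)) y := by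
      apply HasFDerivAt.fun_sum
      intro j _
      have h2 := (ContinuousLinearMap.proj (R := ℝ) (φ := fun _ : Fin n => ℂ) j).hasFDerivAt (x := y)
      exact h2.norm_sq
    rw [this.fderiv]
    simp only [ContinuousLinearMap.sum_apply, ContinuousLinearMap.comp_apply,
      ContinuousLinearMap.smul_apply, innerSL_apply_apply, ContinuousLinearMap.proj_apply,
      nsmul_eq_mul, Nat.cast_ofNat]
  unfold D2
  simp_rw [h1]
  have h3 : HasFDerivAt (fun y : Cn n => ∑ j, 2 * inner ℝ (y j) (v j))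
      (∑ j, (2 : ℝ) • ((innerSL ℝ (v j)).comp (ContinuousLinearMap.proj (R := ℝ) (φ := fun _ : Fin n => ℂ) j))) x := by
    apply HasFDerivAt.fun_sum
    intro j _
    have h2 := ((innerSL ℝ (v j)).comp (ContinuousLinearMap.proj (R := ℝ) (φ := fun _ : Fin n => ℂ) j)).hasFDerivAt (x := x)
    have h4 := h2.const_mul (2 : ℝ)
    refine h4.congr_of_eventuallyEq ?_
    filter_upwards with y
    simp [real_inner_comm]
  rw [h3.fderiv]
  simp [real_inner_comm]

theorem levi_q (x : Cn n) : levi (fun y : Cn n => ∑ j, ‖y j‖ ^ 2) x = 1 := by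
  ext j k
  simp only [levi, Matrix.of_apply, D2_q]
  have h : ∀ a b : ℂ, (∑ l, 2 * inner ℝ ((Pi.single j a : Cn n) l) ((Pi.single k b : Cn n) l)) =
      if j = k then 2 * inner ℝ a b else 0 := by
    intro a b
    rw [Finset.sum_eq_single j]
    · by_cases hjk : j = k
      · subst hjk; simp
      · simp [hjk]
    · intro l _ hl
      simp [Pi.single_apply, hl]
    · simp
  rw [h, h, h, h]
  by_cases hjk : j = k
  · subst hjk
    simp [Complex.inner]
    norm_num
  · simp [hjk]

theorem D2_cont {V : Set (Cn n)} {f : Cn n → ℝ} (hV : IsOpen V) (hf : ContDiffOn ℝ ∞ f V)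
    (u v : Cn n) : ContinuousOn (fun x => D2 f x u v) V := by
  have h1 : ContDiffOn ℝ ∞ (fderiv ℝ f) V := hf.fderiv_of_isOpen hV (by simp)
  have h2 : ContDiffOn ℝ ∞ (fun y => fderiv ℝ f y v) V := h1.clm_apply contDiffOn_const
  have h3 : ContDiffOn ℝ ∞ (fderiv ℝ (fun y => fderiv ℝ f y v)) V :=
    h2.fderiv_of_isOpen hV (by simp)
  exact (h3.clm_apply contDiffOn_const).continuousOn

theorem levi_cont {V : Set (Cn n)} {f : Cn n → ℝ} (hV : IsOpen V) (hf : ContDiffOn ℝ ∞ f V)
    (j k : Fin n) : ContinuousOn (fun x => levi f x j k) V := by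
  simp only [levi, Matrix.of_apply]
  refine ContinuousOn.mul continuousOn_const ?_
  refine ContinuousOn.add ?_ (ContinuousOn.mul continuousOn_const ?_)
  · exact Complex.continuous_ofReal.comp_continuousOn
      ((D2_cont hV hf _ _).add (D2_cont hV hf _ _))
  · exact Complex.continuous_ofReal.comp_continuousOn
      ((D2_cont hV hf _ _).sub (D2_cont hV hf _ _))

theorem levi_wirt {f : Cn n → ℝ} {x : Cn n} (hf : ContDiffAt ℝ 2 f x) (j k : Fin n) :
    levi f x j k = wd j (fun y => wdb k (fun z => (f z : ℂ)) y) x := by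
  have hf' : ∀ᶠ y in 𝓝 x, DifferentiableAt ℝ f y := by
    have := (hf.eventually (by simp))
    filter_upwards [this] with y hy
    exact hy.differentiableAt (by norm_num)
  have h0 : ∀ y, DifferentiableAt ℝ f y → ∀ v : Cn n,
      fderiv ℝ (fun z => (f z : ℂ)) y v = ((fderiv ℝ f y v : ℝ) : ℂ) := by
    intro y hy v
    have := (Complex.ofRealCLM.hasFDerivAt (x := f y)).comp y hy.hasFDerivAt
    have h2 : fderiv ℝ (fun z => (f z : ℂ)) y = Complex.ofRealCLM.comp (fderiv ℝ f y) :=
      this.fderiv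
    rw [h2]; simp
  have h1 : (fun y => wdb k (fun z => (f z : ℂ)) y) =ᶠ[𝓝 x] fun y =>
      (1 / 2 : ℂ) * (((fderiv ℝ f y (Pi.single k 1) : ℝ) : ℂ) +
        Complex.I * ((fderiv ℝ f y (Pi.single k Complex.I) : ℝ) : ℂ)) := by
    filter_upwards [hf'] with y hy
    simp only [wdb, h0 y hy]
  have d : ∀ v : Cn n, HasFDerivAt (fun y => ((fderiv ℝ f y v : ℝ) : ℂ))
      (Complex.ofRealCLM.comp (fderiv ℝ (fun y => fderiv ℝ f y v) x)) x := by
    intro v
    have d1 : DifferentiableAt ℝ (fun y => fderiv ℝ f y v) x :=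
      (diff_fderiv hf).clm_apply (differentiableAt_const v)
    exact (Complex.ofRealCLM.hasFDerivAt (x := fderiv ℝ f x v)).comp x d1.hasFDerivAt
  have h2 : fderiv ℝ (fun y => wdb k (fun z => (f z : ℂ)) y) x =
      (1 / 2 : ℂ) • (Complex.ofRealCLM.comp (fderiv ℝ (fun y => fderiv ℝ f y (Pi.single k 1)) x) +
        Complex.I • Complex.ofRealCLM.comp
          (fderiv ℝ (fun y => fderiv ℝ f y (Pi.single k Complex.I)) x)) := by
    rw [h1.fderiv_eq]
    exact (((d _).add ((d _).const_mul Complex.I)).const_mul (1 / 2 : ℂ)).fderiv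
  simp only [wd, h2, levi, Matrix.of_apply, D2]
  simp
  ring_nf
  simp
  ring

theorem z0 : Z0Stmt :=
  ⟨fun n f g x h => by ext j k; simp only [levi, Matrix.of_apply, D2_congr h],
   fun n f g x c hf hg => levi_lin c hf hg, fun n f x hf => levi_herm hf, fun n x => levi_q x,
   fun n V f hV hf j k => levi_cont hV hf j k, fun n f x hf j k => levi_wirt hf j k⟩

end Pool.Agent.Helper78.ZM
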