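import Mathlib

/-!
Project ZM (MP_ccc3c9_an): definitions.
-/

open MeasureTheory Filter Topology
open scoped ContDiff Real ENNReal

namespace Pool.Agent.Helper78.ZM

/-- `ℂ^n`, with coordinates `z 0, …, z (n-1)`; `volume` is Lebesgue measure. -/
abbrev Cn (n : ℕ) := Fin n → ℂ

/-- the Euclidean norm `‖z‖ = (∑ |z_j|²)^{1/2}` on `ℂ^n` -/
noncomputable def nrm {n : ℕ} (z : Cn n) : ℝ := Real.sqrt (∑ j, ‖z j‖ ^ 2)

/-- the open unit ball of `ℂ^n` -/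
def uball (n : ℕ) : Set (Cn n) := {z | nrm z < 1}

/-- The mean `(1/2π) ∫_0^{2π} u(θ) dθ` (in `[-∞, ∞]`) of an upper semicontinuous function `u`:
the infimum of the means of its continuous majorants. -/
noncomputable def mean (u : ℝ → EReal) : EReal :=
  ⨅ (g : ℝ → ℝ) (_ : Continuous g) (_ : ∀ θ, u θ ≤ (g θ : EReal)),
    (((2 * π)⁻¹ * ∫ θ in (0 : ℝ)..(2 * π), g θ : ℝ) : EReal)

/-- `φ` is plurisubharmonic on the open set `U`: it takes values in `[-∞, ∞)`, is upper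
semicontinuous and not identically `-∞`, and for every closed complex disc `{a + ζ v : |ζ| ≤ 1}`
in `U` the value at the centre is at most the mean over the boundary circle. -/
def IsPSH {n : ℕ} (φ : Cn n → EReal) (U : Set (Cn n)) : Prop :=
  (∀ x ∈ U, φ x ≠ ⊤) ∧ UpperSemicontinuousOn φ U ∧ (∃ x ∈ U, φ x ≠ ⊥) ∧
    ∀ a v : Cn n, (∀ ζ : ℂ, ‖ζ‖ ≤ 1 → a + ζ • v ∈ U) →
      φ a ≤ mean (fun θ : ℝ => φ (a + Complex.exp (θ * Complex.I) • v))

/-- the second directional derivative `∂_u ∂_v f (x)` -/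
noncomputable def D2 {n : ℕ} (f : Cn n → ℝ) (x u v : Cn n) : ℝ :=
  fderiv ℝ (fun y => fderiv ℝ f y v) x u

/-- the complex Hessian `∂²f / ∂z_j ∂z̄_k (x)` of a real valued function -/
noncomputable def levi {n : ℕ} (f : Cn n → ℝ) (x : Cn n) : Matrix (Fin n) (Fin n) ℂ :=
  Matrix.of fun j k =>
    (1 / 4 : ℂ) *
      (((D2 f x (Pi.single j 1) (Pi.single k 1)
          + D2 f x (Pi.single j Complex.I) (Pi.single k Complex.I) : ℝ) : ℂ)
        + Complex.I * ((D2 f x (Pi.single j 1) (Pi.single k Complex.I)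
          - D2 f x (Pi.single j Complex.I) (Pi.single k 1) : ℝ) : ℂ))

/-- The density of `(dd^c f)^n` with respect to Lebesgue measure, for smooth `f`; with
`dd^c ‖z‖² = ∑ (i/π) dz_j ∧ dz̄_j` it is `n! (2/π)^n det (∂²f / ∂z_j ∂z̄_k)`. -/
noncomputable def maDensity {n : ℕ} (f : Cn n → ℝ) (x : Cn n) : ℝ :=
  (n.factorial : ℝ) * (2 / π) ^ n * (levi f x).det.re

/-- `μ` is the complex Monge–Ampère measure `(dd^c φ)^n` of `φ` on the unit ball: it is finite on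
compact subsets, and for every relatively compact subdomain `V` and every sequence `f_j` of smooth
plurisubharmonic functions decreasing to `φ` on `V`, the measures `(dd^c f_j)^n` converge weakly
to `μ` on `V`. -/
def IsMAMeasure {n : ℕ} (φ : Cn n → EReal) (μ : Measure (Cn n)) : Prop :=
  (∀ K : Set (Cn n), K ⊆ uball n → IsCompact K → μ K < ⊤) ∧
    ∀ V : Set (Cn n), IsOpen V → IsConnected V → closure V ⊆ uball n →
      ∀ f : ℕ → Cn n → ℝ,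
        (∀ j, ContDiffOn ℝ ∞ (f j) V) →
        (∀ j, IsPSH (fun x => (f j x : EReal)) V) →
        (∀ j, ∀ x ∈ V, f (j + 1) x ≤ f j x) →
        (∀ x ∈ V, Tendsto (fun j => (f j x : EReal)) atTop (𝓝 (φ x))) →
        ∀ χ : Cn n → ℝ, Continuous χ → HasCompactSupport χ → tsupport χ ⊆ V →
          Tendsto (fun j => ∫ x, χ x * maDensity (f j) x) atTop (𝓝 (∫ x, χ x ∂μ))

/-- the Lelong number at `0` -/
noncomputable def lelong {n : ℕ} (φ : Cn n → EReal) : EReal :=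
  liminf (fun z => φ z / ((Real.log (nrm z) : ℝ) : EReal)) (𝓝[≠] 0)

/-! ### Auxiliary definitions -/

/-- Wirtinger derivative `∂/∂z_j` of a complex valued function -/
noncomputable def wd {n : ℕ} (j : Fin n) (f : Cn n → ℂ) (x : Cn n) : ℂ :=
  (1 / 2 : ℂ) * (fderiv ℝ f x (Pi.single j 1) - Complex.I * fderiv ℝ f x (Pi.single j Complex.I))

/-- Wirtinger derivative `∂/∂z̄_j` of a complex valued function -/
noncomputable def wdb {n : ℕ} (j : Fin n) (f : Cn n → ℂ) (x : Cn n) : ℂ :=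
  (1 / 2 : ℂ) * (fderiv ℝ f x (Pi.single j 1) + Complex.I * fderiv ℝ f x (Pi.single j Complex.I))

/-- mixed discriminant (`n!` times the usual one): `mixD (A, …, A) = n! det A` -/
noncomputable def mixD {n : ℕ} (H : Fin n → Matrix (Fin n) (Fin n) ℂ) : ℂ :=
  ∑ σ : Equiv.Perm (Fin n), ∑ τ : Equiv.Perm (Fin n),
    ((Equiv.Perm.sign σ : ℤ) : ℂ) * ((Equiv.Perm.sign τ : ℤ) : ℂ) * ∏ i, H i (σ i) (τ i)

/-- the functions `a log (∑ |Φ_j|² + τ) + c` -/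
noncomputable def lg {n : ℕ} (Φ : Cn n → Fin n → ℂ) (τ a c : ℝ) (x : Cn n) : ℝ :=
  a * Real.log (∑ j, ‖Φ x j‖ ^ 2 + τ) + c

/-- complex Jacobian matrix of `Φ` -/
noncomputable def jacM {n : ℕ} (Φ : Cn n → Fin n → ℂ) (x : Cn n) : Matrix (Fin n) (Fin n) ℂ :=
  Matrix.of fun j k => fderiv ℂ (fun y => Φ y j) x (Pi.single k 1)

/-- the map `(F, x_1^N, …, x_{n-1}^N)`, `n = m + 2` -/
noncomputable def Phi {m : ℕ} (F : Cn (m + 2) → ℂ) (N : ℕ) (x : Cn (m + 2)) : Fin (m + 2) → ℂ :=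
  Function.update (fun j => x j ^ N) 0 (F x)

/-- the functions of the construction: `N_k = N0 2^k`,
`h_k = (1/(2 N_k)) log (|F_k|² + ∑_{j ≥ 1} |x_j|^{2 N_k} + τ_k) + (m+2)/N_k` -/
noncomputable def hh {m : ℕ} (N0 : ℕ) (F : ℕ → Cn (m + 2) → ℂ) (τ : ℕ → ℝ) (k : ℕ) :
    Cn (m + 2) → ℝ :=
  lg (Phi (F k) (N0 * 2 ^ k)) (τ k) (1 / (2 * ((N0 : ℝ) * 2 ^ k))) ((m + 2) / ((N0 : ℝ) * 2 ^ k))

/-- the output of the construction -/
structure Constr (m N0 : ℕ) (M0 : ℝ) (F : ℕ → Cn (m + 2) → ℂ) (τ r : ℕ → ℝ) : Prop where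
  smooth : ∀ k, ContDiff ℂ ∞ (F k)
  zero : F 0 = fun x => x 0 ^ N0
  tau_pos : ∀ k, 0 < τ k
  tau_zero : 2 * τ 0 ≤ (1 / (4 * ((m : ℝ) + 2))) ^ (2 * N0)
  r_zero : r 0 = 1 / 4
  r_pos : ∀ k, 0 < r k
  r_half : ∀ k, r (k + 1) ≤ r k / 2
  anti : ∀ k x, nrm x ≤ 1 → hh N0 F τ (k + 1) x ≤ hh N0 F τ k x
  close : ∀ k x, r k ≤ nrm x → nrm x ≤ 1 →
    hh N0 F τ k x - (m + 3) / ((N0 : ℝ) * 2 ^ k) ≤ hh N0 F τ (k + 1) x
  bound : ∀ k x, 1 / 4 ≤ nrm x → nrm x ≤ 1 → |hh N0 F τ k x| ≤ M0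
  small : ∀ k x, r (k + 1) ≤ nrm x → nrm x ≤ 1 →
    |maDensity (hh N0 F τ (k + 1)) x| ≤ (1 / 2) ^ (k + 1)
  lel : ∀ k, 1 ≤ k → 2 / ((N0 : ℝ) * 2 ^ k) * Real.log (r (k + 1)) ≤
    hh N0 F τ (k + 1) (Pi.single 1 ((r (k + 1) : ℝ) : ℂ))
  minf : ∀ k, hh N0 F τ k 0 ≤ (m : ℝ) + 2 - k

/-- the limit function -/
noncomputable def phi {m : ℕ} (N0 : ℕ) (F : ℕ → Cn (m + 2) → ℂ) (τ : ℕ → ℝ)
    (x : Cn (m + 2)) : EReal :=
  ⨅ k, (hh N0 F τ k x : EReal)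

end Pool.Agent.Helper78.ZM
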