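import Pool.Agent.Helper78.ZM.Main
import Pool.Agent.Helper5.ZM.Parts
import Pool.Agent.Helper82.ZM.Compare
import Pool.Agent.Helper7.ZM.Levi
import Pool.Agent.Helper51.ZM.Sub
import Pool.Agent.Helper28.ZM.Det
import Pool.Agent.Helper87.ZM.Base
import Pool.Agent.Helper91.ZM.Constr
import Pool.Agent.Helper94.ZM.Limit
import Pool.Agent.Helper53.ZM.Mass
import Pool.Agent.Helper71.ZM.Weak
import Pool.Agent.Helper85.ZM.Algebra

/-!
Project ZM (MP_ccc3c9_an): all modules together.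
-/

namespace Pool.Agent.Helper78.ZM

theorem mainAll : MainStmt := by
  have h0 := z0
  have h1 := Pool.Agent.Helper85.ZM.z1
  have h2 := Pool.Agent.Helper5.ZM.z2 h0
  have h3 := Pool.Agent.Helper82.ZM.z3 h0 h1 h2
  have h4 := Pool.Agent.Helper7.ZM.z4 h0
  have h5 := Pool.Agent.Helper51.ZM.z5
  have h6 := Pool.Agent.Helper28.ZM.z6
  have h7 := Pool.Agent.Helper87.ZM.z7 h6
  have h8 := Pool.Agent.Helper91.ZM.z8 h5 h6
  have h9 := Pool.Agent.Helper94.ZM.z9 h5
  have h10 := Pool.Agent.Helper53.ZM.z10 h3 h4 h5 h6 h7 h8 h9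
  have h11 := Pool.Agent.Helper71.ZM.z11
  exact main h4 h5 h6 h9 h10 h11

end Pool.Agent.Helper78.ZM
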