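import Pool.Agent.Helper78.ZM.Basic

/-!
Project ZM (MP_ccc3c9_an): assembly of the main theorem from the modules.
-/

open MeasureTheory Filter Topology
open scoped ContDiff Real ENNReal ComplexOrder

namespace Pool.Agent.Helper78.ZM

theorem Phi_smooth {m : ℕ} {F : Cn (m + 2) → ℂ} (hF : ContDiff ℂ ∞ F) (N : ℕ) (j : Fin (m + 2)) :
    ContDiff ℂ ∞ (fun x => Phi F N x j) := by
  by_cases hj : j = 0
  · subst hj
    simpa [Phi] using hF
  · simp only [Phi, Function.update_of_ne hj]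
    exact (contDiff_apply ℂ ℂ j).pow N

theorem maDensity_contOn {n : ℕ} {V : Set (Cn n)} {f : Cn n → ℝ} (hV : IsOpen V)
    (hf : ContDiffOn ℝ ∞ f V) : ContinuousOn (maDensity f) V := by
  unfold maDensity
  refine ContinuousOn.mul continuousOn_const ?_
  refine Complex.continuous_re.comp_continuousOn ?_
  rw [continuousOn_iff_continuous_restrict]
  refine Continuous.matrix_det (A := fun x : V => levi f (x : Cn n)) ?_
  refine continuous_matrix ?_
  intro j k
  have := levi_cont hV hf j k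
  rw [continuousOn_iff_continuous_restrict] at this
  exact this

theorem maDensity_nonneg {n : ℕ} {f : Cn n → ℝ} {x : Cn n} (h : (levi f x).PosSemidef) :
    0 ≤ maDensity f x := by
  unfold maDensity
  have h1 : (0 : ℂ) ≤ (levi f x).det := h.det_nonneg
  have h2 : 0 ≤ (levi f x).det.re := (Complex.le_def.1 h1).1
  positivity

theorem main (h4 : Z4Stmt) (h5 : Z5Stmt) (h6 : Z6Stmt) (h9 : Z9Stmt) (h10 : Z10Stmt)
    (h11 : Z11Stmt) : MainStmt := by
  intro m
  obtain ⟨N0, M0, F, τ, r, hN0, hC, m0, hm0, hlim⟩ := h10 m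
  obtain ⟨hpsh, hlel, hbot, htend, g, hg, hgeq, hbd⟩ := h9 m N0 M0 F τ r hN0 hC
  refine ⟨phi N0 F τ, hpsh, ⟨ENNReal.ofReal m0, ENNReal.ofReal_pos.2 hm0, ENNReal.ofReal_lt_top,
    ?_, ?_⟩, hlel, hbot, ⟨g, hg, hgeq⟩, hh N0 F τ, ?_, ?_, ?_, ?_⟩
  · intro K _ _
    exact lt_of_le_of_lt (measure_mono (Set.subset_univ K)) (by
      rw [Measure.smul_apply]
      simp)
  · intro V hV _ hcl f hf hfpsh hanti hft χ hχ hχc hχV
    have h := h11 (m + 2) V (fun j => maDensity (f j)) m0 hV hm0.le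
      (fun j => maDensity_contOn hV (hf j))
      (fun j x hx => maDensity_nonneg (h4 (m + 2) V (f j) hV (hf j) (hfpsh j) x hx))
      (fun χ hχ hχc hχV hχ0 => hlim V hV hcl f hf hfpsh hanti hft χ hχ hχc hχV hχ0)
      χ hχ hχc hχV
    have e : ∫ x, χ x ∂(ENNReal.ofReal m0 • Measure.dirac (0 : Cn (m + 2))) = m0 * χ 0 := by
      rw [integral_smul_measure, integral_dirac]
      simp [ENNReal.toReal_ofReal hm0.le]
    rw [e]
    exact h
  · intro j
    exact (h6 (m + 2) (Phi (F j) (N0 * 2 ^ j)) (Phi_smooth (hC.smooth j) _) _ _ _ (hC.tau_pos j) 0).1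
  · intro j
    have hs : ContDiff ℝ ∞ (hh N0 F τ j) :=
      (h6 (m + 2) (Phi (F j) (N0 * 2 ^ j)) (Phi_smooth (hC.smooth j) _) _ _ _ (hC.tau_pos j) 0).1
    refine h5.2 (m + 2) (hh N0 F τ j) (uball (m + 2)) ⟨0, by simp [uball, nrm]⟩ hs.continuous ?_
    exact h5.1 (m + 2) (Phi (F j) (N0 * 2 ^ j)) (Phi_smooth (hC.smooth j) _) _ _ _
      (hC.tau_pos j) (by positivity)
  · intro j x hx
    exact hC.anti j x (le_of_lt hx)
  · intro x hx
    exact htend x (le_of_lt hx)

end Pool.Agent.Helper78.ZM
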