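import Pool.Agent.Helper78.ZM.Defs

/-!
Project ZM (MP_ccc3c9_an): the statements of the modules.
-/

open MeasureTheory Filter Topology
open scoped ContDiff Real ENNReal ComplexOrder

namespace Pool.Agent.Helper78.ZM

/-- Z0 (basic properties of the complex Hessian) -/
def Z0Stmt : Prop :=
  (∀ (n : ℕ) (f g : Cn n → ℝ) (x : Cn n), f =ᶠ[𝓝 x] g → levi f x = levi g x) ∧
  (∀ (n : ℕ) (f g : Cn n → ℝ) (x : Cn n) (c : ℝ), ContDiffAt ℝ 2 f x → ContDiffAt ℝ 2 g x →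
    levi (fun y => f y + c * g y) x = levi f x + (c : ℂ) • levi g x) ∧
  (∀ (n : ℕ) (f : Cn n → ℝ) (x : Cn n), ContDiffAt ℝ 2 f x → (levi f x).IsHermitian) ∧
  (∀ (n : ℕ) (x : Cn n), levi (fun y : Cn n => ∑ j, ‖y j‖ ^ 2) x = 1) ∧
  (∀ (n : ℕ) (V : Set (Cn n)) (f : Cn n → ℝ), IsOpen V → ContDiffOn ℝ ∞ f V →
    ∀ j k, ContinuousOn (fun x => levi f x j k) V) ∧
  (∀ (n : ℕ) (f : Cn n → ℝ) (x : Cn n), ContDiffAt ℝ 2 f x → ∀ j k,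
    levi f x j k = wd j (fun y => wdb k (fun z => (f z : ℂ)) y) x)

/-- Z1 (algebra of mixed discriminants) -/
def Z1Stmt : Prop :=
  (∀ (n : ℕ) (A : Matrix (Fin n) (Fin n) ℂ), mixD (fun _ : Fin n => A) = (n.factorial : ℂ) * A.det) ∧
  (∀ (n : ℕ) (H : Fin n → Matrix (Fin n) (Fin n) ℂ) (i : Fin n) (A B : Matrix (Fin n) (Fin n) ℂ)
    (c : ℂ), mixD (Function.update H i (A + c • B)) =
      mixD (Function.update H i A) + c * mixD (Function.update H i B)) ∧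
  (∀ (n : ℕ) (H : Fin n → Matrix (Fin n) (Fin n) ℂ), (∀ i, (H i).PosSemidef) →
    0 ≤ (mixD H).re ∧ (mixD H).im = 0) ∧
  (∀ (n : ℕ) (H : Fin n → Matrix (Fin n) (Fin n) ℂ) (i : Fin n) (A : Matrix (Fin n) (Fin n) ℂ)
    (c : ℝ), (∀ j, j ≠ i → (H j).PosSemidef) → A.IsHermitian → (∀ j k, ‖A j k‖ ≤ c) →
    ‖mixD (Function.update H i A)‖ ≤ n * c * (mixD (Function.update H i 1)).re) ∧
  (∀ (n : ℕ) (A B : Matrix (Fin n) (Fin n) ℂ), (n.factorial : ℂ) * (A.det - B.det) =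
    ∑ i : Fin n, mixD (Function.update (fun j => if j < i then A else B) i (A - B)))

/-- Z2 (integration by parts) -/
def Z2Stmt : Prop :=
  ∀ (n : ℕ) (u : Fin n → Cn n → ℝ), (∀ i, ContDiff ℝ ∞ (u i)) →
    ∀ (χ : Cn n → ℝ), ContDiff ℝ ∞ χ → HasCompactSupport χ → ∀ i : Fin n,
      ∫ x, (χ x : ℂ) * mixD (fun j => levi (u j) x) =
        ∫ x, (u i x : ℂ) * mixD (fun j => levi (Function.update u i χ j) x)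

/-- Z3 (comparison lemma) -/
def Z3Stmt : Prop :=
  ∀ (n : ℕ) (χ : Cn n → ℝ), ContDiff ℝ ∞ χ → HasCompactSupport χ →
    ∀ (S : Set (Cn n)), IsCompact S → (∀ x, x ∉ interior S → ∀ᶠ y in 𝓝 x, χ y = χ x) →
    ∃ C : ℝ, 0 ≤ C ∧ ∀ V : Set (Cn n), IsOpen V → tsupport χ ⊆ V → S ⊆ V →
      ∀ f g : Cn n → ℝ, ContDiffOn ℝ ∞ f V → ContDiffOn ℝ ∞ g V →
        (∀ x ∈ V, (levi f x).PosSemidef) → (∀ x ∈ V, (levi g x).PosSemidef) →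
        ∀ M ε : ℝ, 0 ≤ ε → (∀ x ∈ S, |f x| ≤ M) → (∀ x ∈ S, |g x| ≤ M) →
          (∀ x ∈ S, |f x - g x| ≤ ε) →
          |(∫ x, χ x * maDensity f x) - ∫ x, χ x * maDensity g x| ≤ C * M ^ (n - 1) * ε

/-- Z4 (smooth psh functions have a positive semidefinite complex Hessian) -/
def Z4Stmt : Prop :=
  ∀ (n : ℕ) (V : Set (Cn n)) (f : Cn n → ℝ), IsOpen V → ContDiffOn ℝ ∞ f V →
    IsPSH (fun x => (f x : EReal)) V → ∀ x ∈ V, (levi f x).PosSemidef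

/-- Z5 (the functions `lg` are plurisubharmonic) -/
def Z5Stmt : Prop :=
  (∀ (n : ℕ) (Φ : Cn n → Fin n → ℂ), (∀ j, ContDiff ℂ ∞ (fun x => Φ x j)) → ∀ τ a c : ℝ,
    0 < τ → 0 ≤ a → ∀ x v : Cn n, lg Φ τ a c x ≤
      (2 * π)⁻¹ * ∫ θ in (0 : ℝ)..(2 * π), lg Φ τ a c (x + Complex.exp (θ * Complex.I) • v)) ∧
  (∀ (n : ℕ) (f : Cn n → ℝ) (U : Set (Cn n)), U.Nonempty → Continuous f →
    (∀ x v : Cn n, f x ≤
      (2 * π)⁻¹ * ∫ θ in (0 : ℝ)..(2 * π), f (x + Complex.exp (θ * Complex.I) • v)) →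
    IsPSH (fun x => (f x : EReal)) U)

/-- Z6 (the complex Hessian determinant of `lg`) -/
def Z6Stmt : Prop :=
  ∀ (n : ℕ) (Φ : Cn n → Fin n → ℂ), (∀ j, ContDiff ℂ ∞ (fun x => Φ x j)) → ∀ τ a c : ℝ,
    0 < τ → ∀ x : Cn n, ContDiff ℝ ∞ (lg Φ τ a c) ∧
      (levi (lg Φ τ a c) x).det =
        ((a ^ n * τ * ‖(jacM Φ x).det‖ ^ 2 / (∑ j, ‖Φ x j‖ ^ 2 + τ) ^ (n + 1) : ℝ) : ℂ)

/-- Z7 (mass of the first function) -/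
def Z7Stmt : Prop :=
  ∀ (n N : ℕ) (τ c : ℝ), 1 ≤ n → 1 ≤ N → 0 < τ → 2 * τ ≤ (1 / (4 * (n : ℝ))) ^ (2 * N) →
    ∀ χ : Cn n → ℝ, Continuous χ → HasCompactSupport χ → (∀ x, 0 ≤ χ x) →
      (∀ x, nrm x ≤ 1 / 2 → χ x = 1) →
      (n.factorial : ℝ) / (2 * n + 1) ^ (n + 1) ≤
        ∫ x, χ x * maDensity (lg (fun y j => y j ^ N) τ (1 / (2 * (N : ℝ))) c) x

/-- Z8 (the construction) -/
def Z8Stmt : Prop :=
  ∀ m : ℕ, ∃ M0 : ℝ, ∀ N0 : ℕ, 1 ≤ N0 → ∃ (F : ℕ → Cn (m + 2) → ℂ) (τ r : ℕ → ℝ),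
    Constr m N0 M0 F τ r

/-- Z9 (properties of the limit function) -/
def Z9Stmt : Prop :=
  ∀ (m N0 : ℕ) (M0 : ℝ) (F : ℕ → Cn (m + 2) → ℂ) (τ r : ℕ → ℝ), 1 ≤ N0 →
    Constr m N0 M0 F τ r →
    IsPSH (phi N0 F τ) (uball (m + 2)) ∧ lelong (phi N0 F τ) = 0 ∧ phi N0 F τ 0 = ⊥ ∧
    (∀ x : Cn (m + 2), nrm x ≤ 1 →
      Tendsto (fun k => (hh N0 F τ k x : EReal)) atTop (𝓝 (phi N0 F τ x))) ∧
    ∃ g : Cn (m + 2) → ℝ, ContinuousOn g {x | 0 < nrm x ∧ nrm x < 1} ∧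
      (∀ x, 0 < nrm x → nrm x < 1 → phi N0 F τ x = (g x : EReal)) ∧
      (∀ k x, r k ≤ nrm x → nrm x < 1 →
        g x ≤ hh N0 F τ k x ∧ hh N0 F τ k x - 2 * (m + 3) / ((N0 : ℝ) * 2 ^ k) ≤ g x)

/-- Z10 (limits for smooth test functions which are constant near the origin) -/
def Z10Stmt : Prop :=
  ∀ m : ℕ, ∃ (N0 : ℕ) (M0 : ℝ) (F : ℕ → Cn (m + 2) → ℂ) (τ r : ℕ → ℝ), 1 ≤ N0 ∧
    Constr m N0 M0 F τ r ∧ ∃ m0 : ℝ, 0 < m0 ∧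
      ∀ V : Set (Cn (m + 2)), IsOpen V → closure V ⊆ uball (m + 2) →
      ∀ f : ℕ → Cn (m + 2) → ℝ, (∀ j, ContDiffOn ℝ ∞ (f j) V) →
        (∀ j, IsPSH (fun x => (f j x : EReal)) V) → (∀ j, ∀ x ∈ V, f (j + 1) x ≤ f j x) →
        (∀ x ∈ V, Tendsto (fun j => (f j x : EReal)) atTop (𝓝 (phi N0 F τ x))) →
        ∀ χ : Cn (m + 2) → ℝ, ContDiff ℝ ∞ χ → HasCompactSupport χ → tsupport χ ⊆ V →
          (∀ᶠ y in 𝓝 (0 : Cn (m + 2)), χ y = χ 0) →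
          Tendsto (fun j => ∫ x, χ x * maDensity (f j) x) atTop (𝓝 (m0 * χ 0))

/-- Z11 (from smooth test functions to continuous ones) -/
def Z11Stmt : Prop :=
  ∀ (n : ℕ) (V : Set (Cn n)) (ρ : ℕ → Cn n → ℝ) (m0 : ℝ), IsOpen V → 0 ≤ m0 →
    (∀ j, ContinuousOn (ρ j) V) → (∀ j, ∀ x ∈ V, 0 ≤ ρ j x) →
    (∀ χ : Cn n → ℝ, ContDiff ℝ ∞ χ → HasCompactSupport χ → tsupport χ ⊆ V →
      (∀ᶠ y in 𝓝 (0 : Cn n), χ y = χ 0) →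
      Tendsto (fun j => ∫ x, χ x * ρ j x) atTop (𝓝 (m0 * χ 0))) →
    ∀ χ : Cn n → ℝ, Continuous χ → HasCompactSupport χ → tsupport χ ⊆ V →
      Tendsto (fun j => ∫ x, χ x * ρ j x) atTop (𝓝 (m0 * χ 0))

/-- the main theorem -/
def MainStmt : Prop :=
  ∀ m : ℕ, ∃ φ : Cn (m + 2) → EReal, IsPSH φ (uball (m + 2)) ∧
    (∃ c : ℝ≥0∞, 0 < c ∧ c < ⊤ ∧ IsMAMeasure φ (c • Measure.dirac 0)) ∧ lelong φ = 0 ∧
    φ 0 = ⊥ ∧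
    (∃ g : Cn (m + 2) → ℝ, ContinuousOn g {x | 0 < nrm x ∧ nrm x < 1} ∧
      ∀ x, 0 < nrm x → nrm x < 1 → φ x = (g x : EReal)) ∧
    ∃ f : ℕ → Cn (m + 2) → ℝ, (∀ j, ContDiff ℝ ∞ (f j)) ∧
      (∀ j, IsPSH (fun x => (f j x : EReal)) (uball (m + 2))) ∧
      (∀ j, ∀ x ∈ uball (m + 2), f (j + 1) x ≤ f j x) ∧
      ∀ x ∈ uball (m + 2), Tendsto (fun j => (f j x : EReal)) atTop (𝓝 (φ x))

end Pool.Agent.Helper78.ZM
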